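import Pool.Agent.Lib.MP_0b6b0e_gt.ZB.Defs

/-!
Module SC: equal volumes of the central `i`-dimensional sections give the chord equation with
exponent `i` (from Funk's theorem, module FK).
-/

set_option autoImplicit false

open Set Filter Topology MeasureTheory

open scoped InnerProductSpace

namespace Pool.Agent.Lib.MP_0b6b0e_gt.ZB

/-- Subspaces of every dimension containing a given nonzero vector. -/
lemma sc_exists_submodule {E : Type*} [AddCommGroup E] [Module ℝ E] [FiniteDimensional ℝ E]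
    {x : E} (hx : x ≠ 0) (i : ℕ) (hi : i + 1 ≤ Module.finrank ℝ E) :
    ∃ V : Submodule ℝ E, x ∈ V ∧ Module.finrank ℝ V = i + 1 := by
  induction i with
  | zero => exact ⟨ℝ ∙ x, Submodule.mem_span_singleton_self x, finrank_span_singleton hx⟩
  | succ i ih =>
    obtain ⟨V, hxV, hV⟩ := ih (by omega)
    have hne : V ≠ ⊤ := by
      rintro rfl
      rw [finrank_top] at hV
      omega
    obtain ⟨y, -, hy⟩ := SetLike.exists_of_lt (lt_top_iff_ne_top.2 hne)
    have hy0 : y ≠ 0 := by
      rintro rfl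
      exact hy V.zero_mem
    refine ⟨V ⊔ ℝ ∙ y, Submodule.mem_sup_left hxV, ?_⟩
    have h1 := Submodule.finrank_sup_add_finrank_inf_eq V (ℝ ∙ y)
    have h2 : V ⊓ ℝ ∙ y = ⊥ := by
      rw [Submodule.eq_bot_iff]
      intro z hz
      obtain ⟨hz1, hz2⟩ := Submodule.mem_inf.1 hz
      obtain ⟨c, rfl⟩ := Submodule.mem_span_singleton.1 hz2
      by_contra hc
      have hc0 : c ≠ 0 := by
        rintro rfl
        exact hc (zero_smul _ _)
      exact hy ((V.smul_mem_iff hc0).1 hz1)
    rw [h2, finrank_bot, finrank_span_singleton hy0, hV] at h1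
    omega

/-- Restriction of a gauge function to a subspace. -/
lemma IsG.restrict {E : Type*} [NormedAddCommGroup E] [InnerProductSpace ℝ E] {P : E → ℝ}
    (hP : IsG P) (V : Submodule ℝ E) : IsG (fun y : V => P (y : E)) where
  add x y := by simpa using hP.add x y
  smul c hc x := by simpa using hP.smul c hc x
  lower := by
    obtain ⟨c, hc, h⟩ := hP.lower
    exact ⟨c, hc, fun x => by simpa using h x⟩
  upper := by
    obtain ⟨C, hC, h⟩ := hP.upper
    exact ⟨C, hC, fun x => by simpa using h x⟩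

lemma sc_mem_iff {n : ℕ} (K : Body n) (x : EuclideanSpace ℝ (Fin n)) :
    gf K x ≤ 1 ↔ x ∈ (K.1 : Set (EuclideanSpace ℝ (Fin n))) := by
  unfold gf
  rw [gauge_le_one_iff_mem_closure K.1.convex (mem_interior_iff_mem_nhds.1 K.2),
    K.1.isClosed.closure_eq]

/-- Two sets with the same Hausdorff measure of full dimension have the same volume. -/
lemma sc_volume_eq {T : Type*} [NormedAddCommGroup T] [InnerProductSpace ℝ T]
    [FiniteDimensional ℝ T] [MeasurableSpace T] [BorelSpace T] {i : ℕ}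
    (hi : Module.finrank ℝ T = i) {A B : Set T}
    (h : Measure.hausdorffMeasure (i : ℝ) A = Measure.hausdorffMeasure (i : ℝ) B) :
    (volume : Measure T) A = (volume : Measure T) B := by
  subst hi
  have h1 := Measure.isAddLeftInvariant_eq_smul (volume : Measure T)
    (Measure.hausdorffMeasure (Module.finrank ℝ T : ℝ))
  rw [h1]
  simp only [Measure.smul_apply, h]

/-- Two subsets of a hyperplane whose images have the same Hausdorff measure. -/
lemma sc_orth {V : Type} [NormedAddCommGroup V] [InnerProductSpace ℝ V] [FiniteDimensional ℝ V]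
    [MeasurableSpace V] [BorelSpace V] {i : ℕ} (hV : Module.finrank ℝ V = i + 1) {u : V}
    (hu : u ≠ 0) {A B : Set (ℝ ∙ u)ᗮ}
    (h : Measure.hausdorffMeasure (i : ℝ) ((fun y : (ℝ ∙ u)ᗮ => (y : V)) '' A) =
      Measure.hausdorffMeasure (i : ℝ) ((fun y : (ℝ ∙ u)ᗮ => (y : V)) '' B)) :
    (volume : Measure (ℝ ∙ u)ᗮ) A = (volume : Measure (ℝ ∙ u)ᗮ) B := by
  have hT : Module.finrank ℝ (ℝ ∙ u)ᗮ = i := by
    have : Fact (Module.finrank ℝ V = i + 1) := ⟨hV⟩
    exact Submodule.finrank_orthogonal_span_singleton hu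
  have hiso : Isometry (fun y : (ℝ ∙ u)ᗮ => (y : V)) := isometry_subtype_coe
  have e1 := hiso.hausdorffMeasure_image (Or.inl (Nat.cast_nonneg i) : (0 : ℝ) ≤ (i : ℝ) ∨ _) A
  have e2 := hiso.hausdorffMeasure_image (Or.inl (Nat.cast_nonneg i) : (0 : ℝ) ≤ (i : ℝ) ∨ _) B
  exact sc_volume_eq hT (by rw [← e1, ← e2, h])

theorem sc (hFK : FKStatement) (hGB : GBStatement) : SCStatement := by
  intro n i hi hin K L hKL x hx
  have hn : Module.finrank ℝ (EuclideanSpace ℝ (Fin n)) = n := by simp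
  obtain ⟨V, hxV, hV⟩ := sc_exists_submodule hx i (by rw [hn]; omega)
  have hGK := (hGB.1 n K).restrict V
  have hGL := (hGB.1 n L).restrict V
  have key := hFK V i hi hV (fun y : V => gf K (y : EuclideanSpace ℝ (Fin n)))
    (fun y : V => gf L (y : EuclideanSpace ℝ (Fin n))) hGK hGL ?_
  · have := key ⟨x, hxV⟩ (by
      intro h
      exact hx (congrArg Subtype.val h))
    simpa using this
  · intro u hu
    refine sc_orth hV hu ?_
    have hd : (0 : ℝ) ≤ (i : ℝ) := Nat.cast_nonneg i
    have hisoV : Isometry (fun y : V => (y : EuclideanSpace ℝ (Fin n))) := isometry_subtype_coe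
    rw [← hisoV.hausdorffMeasure_image (Or.inl hd), ← hisoV.hausdorffMeasure_image (Or.inl hd)]
    have hfin : Module.finrank ℝ (((ℝ ∙ u)ᗮ : Submodule ℝ V).map V.subtype) = i := by
      rw [Submodule.finrank_map_subtype_eq]
      have : Fact (Module.finrank ℝ V = i + 1) := ⟨hV⟩
      exact Submodule.finrank_orthogonal_span_singleton hu
    have hS := hKL (((ℝ ∙ u)ᗮ : Submodule ℝ V).map V.subtype) hfin
    have himg : ∀ M : Body n,
        (fun y : V => (y : EuclideanSpace ℝ (Fin n))) ''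
          ((fun y : (ℝ ∙ u)ᗮ => (y : V)) ''
            {y : (ℝ ∙ u)ᗮ | gf M ((y : V) : EuclideanSpace ℝ (Fin n)) ≤ 1}) =
        (M.1 : Set (EuclideanSpace ℝ (Fin n))) ∩
          ((((ℝ ∙ u)ᗮ : Submodule ℝ V).map V.subtype :
            Submodule ℝ (EuclideanSpace ℝ (Fin n))) : Set (EuclideanSpace ℝ (Fin n))) := by
      intro M
      ext z
      constructor
      · rintro ⟨_, ⟨y, hy, rfl⟩, rfl⟩
        exact ⟨(sc_mem_iff M _).1 hy, ⟨(y : V), y.2, rfl⟩⟩
      · rintro ⟨hz, ⟨y, hy, rfl⟩⟩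
        exact ⟨y, ⟨⟨y, hy⟩, (sc_mem_iff M _).2 hz, rfl⟩, rfl⟩
    have e1 := himg L
    have e2 := himg K
    exact (congrArg _ e1).trans (hS.trans (congrArg _ e2).symm)

end Pool.Agent.Lib.MP_0b6b0e_gt.ZB
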